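import Pool.Agent.Lib.MP_c7af3c_ag.T2C.H14.PlaneType
import Pool.Agent.Lib.MP_c7af3c_ag.T2C.H38.Det
import Pool.Agent.Lib.MP_c7af3c_ag.T2C.H80.Norm4
import Pool.Agent.Lib.MP_c7af3c_ag.T2C.H84.N34
import Pool.Agent.Lib.MP_c7af3c_ag.T2C.H44.N233Row
import Pool.Agent.Lib.MP_c7af3c_ag.T2C.H44.Q25e
import Pool.Agent.Lib.MP_c7af3c_ag.T2C.H42.Q25B
import Pool.Agent.Lib.MP_c7af3c_ag.T2C.H65.Q25A
import Pool.Agent.Lib.MP_c7af3c_ag.T2C.H51.Q25

/-!
# MP_c7af3c_ag, project T2C: the plane type is impossible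
-/

set_option autoImplicit false

namespace Pool.Agent.T2C.H14

open MvPolynomial Pool.Agent.T2C

theorem q25 : Q25Statement := H51.q25 H65.Q25A.q25a H42.q25b H44.q25e

theorem plane : PlaneTypeStatement := plane_of H38.det H80.norm4 H84.n34 H44.n233 q25

end Pool.Agent.T2C.H14
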