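import Pool.Agent.Lib.MP_c7af3c_ag.T2C.H14.PcanC
import Pool.Agent.Lib.MP_c7af3c_ag.T2.H14.Asmb

/-!
# MP_c7af3c_ag, project T2C: row ASM of the plane type for tuples (helper14)
-/

set_option autoImplicit false

namespace Pool.Agent.T2C.H14

open MvPolynomial Pool.Agent.Gen Pool.Agent.Sharp Pool.Agent.Edge Pool.Agent.T2C
open Pool.Agent.T2 (S3 mulS Sizes Sit CloseStatement QclStatement)
open Pool.Agent.T2C.H8 (Fix T3 HomC lift rs RC sm mulC dT rs_apply sm_apply)
open Pool.Agent.Sharp.H75 (dco DG af Tup Hom)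
open Pool.Agent.Edge.H65 (ssub)
open Pool.Agent.T2.H14 (lin_eq two_pts)

section

variable {K : Type} [Field K] {n c : ℕ} {d : Fin c → ℕ}

/-- the restriction of the tuple has no common linear factor -/
theorem no_lin (hN : NolnStatement) [CharZero K] {D : DSys K n c d} {x : Fin (n + 1) → K}
    {t : Fin 3 → Fin (n + 1)} {P : Fin 3 → Fin (n + 1) → K} (hT : Ty n c d) (h : Pl D x t P)
    {z : MvPolynomial (Fin 3) K} (hz : z.IsHomogeneous 1) (hz0 : z ≠ 0) :
    fP D P ∉ mulC z (fun m => d m - 1) := by
  rintro ⟨A, -, hA⟩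
  have hz1 := lin_eq hz
  set zc : Fin 3 → K := fun i => coeff (Finsupp.single i 1) z with hzc
  have hzc0 : zc ≠ 0 := by
    intro h0
    apply hz0
    rw [hz1]
    refine Finset.sum_eq_zero fun i _ => ?_
    rw [show coeff (Finsupp.single i 1) z = 0 from congrFun h0 i, C_0, zero_mul]
  obtain ⟨b, c', hb, hc, hbc⟩ := two_pts hzc0
  have hli : LinearIndependent K ![(fun f => ∑ i, P i f * b i : Fin (n + 1) → K),
      fun f => ∑ i, P i f * c' i] := by
    rw [LinearIndependent.pair_iff] at hbc ⊢
    intro s r hsr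
    apply hbc
    have hli := Fintype.linearIndependent_iff.1 (li_P h) (s • b + r • c') (by
      funext f
      have h1 := congrFun hsr f
      rw [Pi.add_apply, Pi.smul_apply, Pi.smul_apply] at h1
      rw [Finset.sum_apply, ← h1, smul_eq_mul, smul_eq_mul, Finset.mul_sum, Finset.mul_sum,
        ← Finset.sum_add_distrib]
      refine Finset.sum_congr rfl fun i _ => ?_
      simp only [Pi.smul_apply, Pi.add_apply, smul_eq_mul]
      ring)
    funext i
    exact hli i
  obtain ⟨m, hm⟩ := hN K n c d D _ _ hT hli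
  apply hm
  have hA' : ssub P (D.F m) = z * A m := (congrFun hA m).symm
  rw [lineP_ssub, hA']
  have h1 : lineP z b c' = 0 := by
    rw [hz1]
    unfold lineP
    rw [map_sum]
    simp only [map_mul, aeval_X, algHom_C, Polynomial.algebraMap_eq]
    have e : ∀ i : Fin 3, (Polynomial.C (coeff (Finsupp.single i 1) z) *
        (Polynomial.C (b i) + Polynomial.X * Polynomial.C (c' i)) : Polynomial K) =
        Polynomial.C (zc i * b i) + Polynomial.X * Polynomial.C (zc i * c' i) := by
      intro i
      rw [map_mul, map_mul]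
      ring
    simp only [e]
    rw [Finset.sum_add_distrib, ← Finset.mul_sum, ← map_sum, ← map_sum, hb, hc, map_zero,
      mul_zero, add_zero]
  have h2 : lineP (z * A m) b c' = lineP z b c' * lineP (A m) b c' := map_mul _ _ _
  rw [h2, h1, zero_mul]

/-- the degrees -/
theorem c_le (hT : Ty n c d) : c ≤ 5 := by
  have h1 : ∑ _m : Fin c, 2 ≤ ∑ m, d m := Finset.sum_le_sum fun m _ => hT.two m
  rw [hT.sum, Finset.sum_const, Finset.card_univ, Fintype.card_fin, smul_eq_mul] at h1
  omega

theorem c_le_two (hT : Ty n c d) {m : Fin c} (hm : d m = 5) : c ≤ 2 := by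
  classical
  have h1 : ∑ _m ∈ Finset.univ.erase m, 2 ≤ ∑ m ∈ Finset.univ.erase m, d m :=
    Finset.sum_le_sum fun m _ => hT.two m
  have h2 := Finset.add_sum_erase Finset.univ d (Finset.mem_univ m)
  rw [hT.sum, hm] at h2
  rw [Finset.sum_const, Finset.card_erase_of_mem (Finset.mem_univ _), Finset.card_univ,
    Fintype.card_fin, smul_eq_mul] at h1
  omega

end

theorem asmb : AsmbStatement := by
  intro hbu hhall hdet hclose hlift huniq hqintb hqcl hone h1 h2 h3 h4 hnq hns hn34 hn233 hnorm
    hpcan hphi hquad hqint hqeq hstab hrigid hnoln hq25 hq2223 hp25 Ω _ _ k Γ _ S n c d D x t P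
    hT hc2 hS hP hk
  have hA : PlA k D x t P := { hP with
    kF := hS.kF
    kalg := hS.kalg
    xk := hS.xk }
  have hc5 := c_le hT
  -- the conic case
  have conic : c ≤ 4 → ∀ q : MvPolynomial (Fin 3) Ω, q.IsHomogeneous 2 → q ≠ 0 →
      mulC q (fun m => d m - 2) ≤ RC D x t P → Qok D P q → False := by
    intro hc4 q hq hq0 hqR hqok
    obtain ⟨K, _, _, _, k', D', x', P', q', hA', hq', hq0', hqR', hqok'⟩ :=
      hlift hclose Ω k n c d D x t P hT hA q hq hq0 hqR hqok
    have hP' : Pl D' x' t P' := hA'.toPl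
    have hR' := hphi hpcan K n c d D' x' t P' hT hP'
    obtain ⟨⟨M, hM⟩, hkk⟩ := hstab huniq hqintb hpcan hqint hqeq K n c d D' x' t P' hT
      (by omega) hP' hR' q' hq' hq0' hqR' hqok'
    refine hrigid K k' n c d D' x' t P' hT hA' q' hq' hq0' hkk ?_
    refine hnorm hqcl hone h1 h2 h3 h4 hnq hns hn34 hn233 K n c d q' (fP D' P')
      (fun i => x' (t i)) hT hc2 hc4 ?_ M hM
    refine ⟨hq', hq0', fun m => Edge.H65.ssub_hom P' (D'.hom m), ?_, ?_, ?_, ?_⟩
    · intro h0
      have := congrFun h0 0
      rw [hP'.x0, Pi.zero_apply] at this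
      exact one_ne_zero this
    · have hX : HomC (fun m => d m - 2) (fun m => (X 0 : MvPolynomial (Fin 3) K) ^ (d m - 2)) := by
        intro m
        simpa using (isHomogeneous_X K (0 : Fin 3)).pow (d m - 2)
      have hm : sm q' (fun m => X 0 ^ (d m - 2)) ∈ RC D' x' t P' := hqR' ⟨_, hX, rfl⟩
      have e1 := hR'.van _ hm ⟨0, by omega⟩
      rw [sm_apply, map_mul, map_pow, eval_X, hP'.x0, one_pow, mul_one] at e1
      exact e1
    · intro m
      have := eval_x hP' (D'.F m)
      rw [hP'.h0] at this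
      exact this.symm
    · intro z hz hz0
      exact no_lin hnoln hT hP' hz hz0
  by_cases hq : ∃ m, d m = 2 ∧ fP D P m ≠ 0
  · -- a quadric which does not contain the plane
    obtain ⟨m, hm, hm0⟩ := hq
    rcases Nat.lt_or_ge c 5 with hc | hc
    · refine conic (by omega) (fP D P m) ?_ hm0 (hquad hpcan Ω n c d D x t P hT hP m hm) ?_
      · have := Edge.H65.ssub_hom P (D.hom m)
        rwa [hm] at this
      · rcases Nat.lt_or_ge c 4 with hc' | hc'
        · exact Or.inl (by omega)
        · exact Or.inr ⟨by omega, m, hm, rfl⟩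
    · obtain rfl : c = 5 := by omega
      exact hp25 hpcan hphi hnoln Ω n d D x t P hT hP
  · push Not at hq
    rcases Nat.lt_or_ge c 4 with hc | hc
    · by_cases h5 : ∃ m, d m = 5
      · obtain ⟨m1, hm1⟩ := h5
        obtain rfl : c = 2 := le_antisymm (c_le_two hT hm1) hc2
        obtain ⟨m0, hm0⟩ : ∃ m0, d m0 = 2 := by
          have hs := hT.sum
          rw [Fin.sum_univ_two] at hs
          rcases Fin.exists_fin_two.1 ⟨m1, rfl⟩ with h | h
          · refine ⟨1, ?_⟩
            rw [h] at hm1
            omega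
          · refine ⟨0, ?_⟩
            rw [h] at hm1
            omega
        exact hq25 hphi hpcan Ω k Γ S n d D x t P hT hS hP m0 m1 hm0 hm1 (hq m0 hm0)
      · by_cases hex : ∃ q : MvPolynomial (Fin 3) Ω, q.IsHomogeneous 2 ∧ q ≠ 0 ∧
            mulC q (fun m => d m - 2) ≤ RC D x t P
        · obtain ⟨q, hq1, hq2, hq3⟩ := hex
          exact conic (by omega) q hq1 hq2 hq3 (Or.inl (by omega))
        · push Not at hex
          have hR := hphi hpcan Ω n c d D x t P hT hP
          have hall := hhall Ω n c d (fun i => x (t i)) (RC D x t P) hT (by omega) hR hex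
          have hin := hdet hbu Ω k Γ S n c d D x t P hT hS hP hR hall
          push Not at h5
          obtain ⟨i, f, hif⟩ := hk (fun m hm => hq m hm) h5
          exact hif (hin i f)
    · rcases Nat.lt_or_ge c 5 with hc' | hc'
      · obtain rfl : c = 4 := by omega
        obtain ⟨m, hm, hm0⟩ := hq2223 Ω n d D P hT (li_P hP)
        exact hm0 (hq m hm)
      · obtain rfl : c = 5 := by omega
        exact hp25 hpcan hphi hnoln Ω n d D x t P hT hP

end Pool.Agent.T2C.H14
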