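import Pool.Agent.Lib.MP_c7af3c_ag.T2C.H8.StabC
import Pool.Agent.Lib.MP_c7af3c_ag.T2C.IfaceB
import Pool.Agent.Lib.MP_c7af3c_ag.T2.H14.Tools

/-!
# MP_c7af3c_ag, project T2C: the plane is canonical, tuples of forms (helper14)

`pcanC`: the hypothesis `PcanC` of T2C/H8/StabC.lean for general `n, c, d`.
-/

set_option autoImplicit false

namespace Pool.Agent.T2C.H14

open MvPolynomial Pool.Agent.Gen Pool.Agent.Sharp Pool.Agent.Edge Pool.Agent.T2C
open Pool.Agent.T2C.H8 (Fix T3 HomC lift rs RC sm mulC dT dT_apply dT_hom dG_comm afH afH_apply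
  afH_hom afT_apply afT_hom der_dot ssub_lf fix_iff rs_apply rs_lift)
open Pool.Agent.Sharp.H75 (dco DG af lf Tup Hom afT)
open Pool.Agent.Edge.H65 (ssub)

section

variable {K : Type} [Field K] {n c : ℕ} {d : Fin c → ℕ} {D : DSys K n c d}
  {x : Fin (n + 1) → K} {t : Fin 3 → Fin (n + 1)} {P : Fin 3 → Fin (n + 1) → K}

/-- the action of a matrix is a combination of the `W(p,q)` -/
theorem sum_W (D : DSys K n c d) (x : Fin (n + 1) → K) (E : Fin (n + 1) → Fin (n + 1) → K)
    (f : Fin (n + 1)) :
    (∑ p, ∑ q, E p q • Sharp.WT D x p q) f =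
      DG D (afT D E) (x f) + ∑ q, E f q * x q := by
  classical
  have h1 : H75.VT D x (afT D E) =
      ∑ p, ∑ q, E p q • H75.VT D x (fun m => X q * pderiv p (D.F m)) := by
    have h2 : afT D E = ∑ p, ∑ q, E p q • (fun m => X q * pderiv p (D.F m) : Tup K n c) := by
      funext m
      rw [Finset.sum_apply, afT_apply]
      unfold af H75.lf
      refine Finset.sum_congr rfl fun p _ => ?_
      rw [Finset.sum_mul, Finset.sum_apply]
      refine Finset.sum_congr rfl fun q _ => ?_
      rw [Pi.smul_apply, smul_eq_C_mul, mul_assoc]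
    rw [h2, map_sum]
    refine Finset.sum_congr rfl fun p _ => ?_
    rw [map_sum]
    exact Finset.sum_congr rfl fun q _ => map_smul _ _ _
  rw [← H75.VT_apply, h1, Finset.sum_apply, Finset.sum_apply]
  have h3 : ∑ q, E f q * x q = ∑ p, ∑ q, E p q * (x q * (Pi.single p (1 : K) : Fin (n + 1) → K) f) := by
    refine Eq.symm ((Finset.sum_eq_single f ?_ ?_).trans ?_)
    · intro p _ hp
      refine Finset.sum_eq_zero fun q _ => ?_
      rw [Pi.single_eq_of_ne (Ne.symm hp), mul_zero, mul_zero]
    · intro h; exact absurd (Finset.mem_univ _) h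
    · refine Finset.sum_congr rfl fun q _ => ?_
      rw [Pi.single_eq_same, mul_one]
  rw [h3, ← Finset.sum_add_distrib]
  refine Finset.sum_congr rfl fun p _ => ?_
  rw [Finset.sum_apply, Finset.sum_apply, ← Finset.sum_add_distrib]
  refine Finset.sum_congr rfl fun q _ => ?_
  unfold Sharp.WT
  rw [Pi.smul_apply, Pi.smul_apply, Pi.add_apply, Pi.smul_apply, smul_eq_mul, smul_eq_mul,
    smul_eq_mul, mul_add, add_comm]
  rfl

/-- the point is canonical -/
theorem hx (w0 : ∀ p q, Sharp.WT D x p q ∈ Submodule.span K {x}) (x0 : x (t 0) = 1)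
    (E : Fin (n + 1) → Fin (n + 1) → K) (f : Fin (n + 1)) :
    DG D (afT D E) (x f) + ∑ q, E f q * x q = (∑ q, E (t 0) q * x q) * x f := by
  have h1 : (∑ p, ∑ q, E p q • Sharp.WT D x p q) ∈ Submodule.span K {x} :=
    Submodule.sum_mem _ fun p _ => Submodule.sum_mem _ fun q _ => Submodule.smul_mem _ _ (w0 p q)
  obtain ⟨a, ha⟩ := Submodule.mem_span_singleton.1 h1
  have h2 := congrFun ha f
  have h3 := congrFun ha (t 0)
  rw [sum_W, Pi.smul_apply, smul_eq_mul] at h2 h3
  rw [x0, Derivation.map_one_eq_zero, zero_add, mul_one] at h3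
  rw [← h2, h3]

/-- the tuple `D_(E F) H - E H` fixes the point -/
theorem fixX (hc : Lines.Comm D) (hx : ∀ (E : Fin (n + 1) → Fin (n + 1) → K) f,
      DG D (afT D E) (x f) + ∑ q, E f q * x q = (∑ q, E (t 0) q * x q) * x f)
    (E : Fin (n + 1) → Fin (n + 1) → K)
    {H : Tup K n c} (hH : Hom d H) (fH : ∀ f, DG D H (x f) = 0) (f : Fin (n + 1)) :
    DG D (dT (DG D (afT D E)) H - afH E H) (x f) = 0 := by
  have hEF : Hom d (afT D E) := afT_hom E
  have hB : dT (DG D H) (afT D E) = afT D (fun p r => DG D H (E p r)) + afH E H := by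
    funext m
    rw [dT_apply, afT_apply, H75.dco_af, H75.dco_F D hH]
    rfl
  have hcomm : ∀ f, DG D (dT (DG D (afT D E)) H - afH E H) f =
      DG D (afT D E) (DG D H f) - DG D H (DG D (afT D E) f) +
        DG D (afT D (fun p r => DG D H (E p r))) f := by
    intro f
    rw [dG_comm hc hEF hH f, hB, ← H75.DG_add, sub_add_eq_sub_sub_swap, sub_add_cancel]
  have e1 := hx E f
  have e2 := hx (fun p r => DG D H (E p r)) f
  rw [hcomm, fH, map_zero]
  have e3 : DG D (afT D E) (x f) =
      (∑ q, E (t 0) q * x q) * x f - ∑ q, E f q * x q := by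
    rw [← e1]; ring
  rw [e3, map_sub, Derivation.leibniz, der_dot _ _ _ fH, der_dot _ _ _ fH, fH]
  simp only [smul_eq_mul]
  linear_combination e2

/-- the restriction of `D_(E F) (l A) - E (l A)` for a linear form `l` zero on the plane -/
theorem ssub_N (δ : Derivation ℤ K K) (E : Fin (n + 1) → Fin (n + 1) → K)
    (a : Fin (n + 1) → K) (ha : ∀ i, ∑ p, a p * P i p = 0) (A : MvPolynomial (Fin (n + 1)) K) :
    ssub P (dco δ (H75.lf a * A) - af E (H75.lf a * A)) =
      - ((∑ i, C (∑ p, a p * (δ (P i p) + ∑ q, E p q * P i q)) * X i) * ssub P A) := by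
  have h0 : ssub P (H75.lf a) = 0 := by
    rw [ssub_lf]
    refine Finset.sum_eq_zero fun i _ => ?_
    rw [ha, C_0, zero_mul]
  have h5 := H65.dco_ssub P δ (H75.lf a * A)
  rw [map_mul, h0, zero_mul, H75.dco_zero] at h5
  rw [map_sub]
  have h1 : ∀ p, ssub P (pderiv p (H75.lf a * A)) = C (a p) * ssub P A := by
    intro p
    rw [Derivation.leibniz, smul_eq_mul, smul_eq_mul, map_add, map_mul, map_mul, h0, zero_mul,
      zero_add, H75.pderiv_lf, H65.ssub_C, mul_comm]
  have h2 : ssub P (af E (H75.lf a * A)) =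
      ∑ p, ssub P (pderiv p (H75.lf a * A)) * ssub P (H75.lf (E p)) := by
    unfold af
    rw [map_sum]
    exact Finset.sum_congr rfl fun p _ => by rw [map_mul, mul_comm]
  rw [h2]
  simp only [h1] at h5
  simp only [h1, ssub_lf]
  have h3 : (∑ i, C (∑ p, a p * (δ (P i p) + ∑ q, E p q * P i q)) * X i :
      MvPolynomial (Fin 3) K) = ∑ p, C (a p) * ∑ i, C (δ (P i p)) * X i +
      ∑ p, C (a p) * ∑ i, C (∑ q, E p q * P i q) * X i := by
    rw [← Finset.sum_add_distrib]
    simp only [← mul_add, ← Finset.sum_add_distrib, Finset.mul_sum, ← add_mul, ← map_add]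
    rw [Finset.sum_comm]
    refine Finset.sum_congr rfl fun i _ => ?_
    rw [map_sum, Finset.sum_mul]
    refine Finset.sum_congr rfl fun p _ => ?_
    rw [map_mul]
    ring
  rw [h3, add_mul, Finset.sum_mul, Finset.sum_mul]
  have h4 : ∀ (w : Fin (n + 1) → MvPolynomial (Fin 3) K),
      ∑ p, C (a p) * ssub P A * w p = ∑ p, C (a p) * w p * ssub P A :=
    fun w => Finset.sum_congr rfl fun p _ => by ring
  rw [h4] at h5
  rw [h4]
  linear_combination -h5

/-- `D_G x = 0` implies `G(x) = 0` -/
theorem eval_zero (h0 : ∀ m, eval x (D.F m) = 0) {G : Tup K n c} (hG : Hom d G)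
    (hx : ∀ f, DG D G (x f) = 0) (m : Fin c) : eval x (G m) = 0 := by
  have h1 := Pool.Agent.Gen.H12.der_eval (DG D G) x (D.F m)
  rw [← H75.eval_dco, H75.dco_F D hG, h0, map_zero] at h1
  simp only [hx, mul_zero, Finset.sum_const_zero, add_zero] at h1
  exact h1.symm

theorem eval_x (h : Pl D x t P) (G : MvPolynomial (Fin (n + 1)) K) :
    eval x G = eval (fun i => x (t i)) (ssub P G) := by
  have h1 : ∀ b : Fin 3 → K, eval (fun f => ∑ i, P i f * b i) G = eval b (ssub P G) := by
    intro b
    unfold ssub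
    induction G using MvPolynomial.induction_on with
    | C a => rw [eval_C, algHom_C, MvPolynomial.algebraMap_eq, eval_C]
    | add F G hF hG => rw [map_add, map_add, map_add, hF, hG]
    | mul_X F j hF =>
      rw [map_mul, map_mul, map_mul, hF, aeval_X, eval_X, map_sum]
      congr 1
      refine Finset.sum_congr rfl fun i _ => ?_
      rw [map_mul, eval_C, eval_X]
  rw [← h1]
  exact congrArg (fun u => eval u G) (funext h.xP)

theorem lineP_ssub (G : MvPolynomial (Fin (n + 1)) K) (b c : Fin 3 → K) :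
    lineP G (fun f => ∑ i, P i f * b i) (fun f => ∑ i, P i f * c i) = lineP (ssub P G) b c := by
  unfold lineP ssub
  rw [← AlgHom.comp_apply]
  congr 1
  apply MvPolynomial.algHom_ext
  intro f
  rw [aeval_X, AlgHom.comp_apply, aeval_X, map_sum]
  simp only [map_mul, map_sum, aeval_X, algHom_C]
  rw [Finset.mul_sum, ← Finset.sum_add_distrib]
  refine Finset.sum_congr rfl fun i _ => ?_
  simp only [Polynomial.algebraMap_eq]
  ring

theorem li_P (h : Pl D x t P) : LinearIndependent K P := by
  rw [Fintype.linearIndependent_iff]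
  intro a ha j
  have h1 := congrFun ha (t j)
  rw [Finset.sum_apply] at h1
  simp only [Pi.smul_apply, smul_eq_mul, h.Pt, Pi.zero_apply] at h1
  rw [Finset.sum_eq_single j] at h1
  · rw [if_pos rfl, mul_one] at h1
    exact h1
  · intro i _ hij
    rw [if_neg hij, mul_zero]
  · intro hj; exact absurd (Finset.mem_univ _) hj

/-- the main argument: the plane moves canonically -/
theorem canon [CharZero K] (h : Pl D x t P) (hd : ∀ m, 1 ≤ d m) (δ : Derivation ℤ K K)
    (E : Fin (n + 1) → Fin (n + 1) → K)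
    (hN : ∀ H : Tup K n c, Hom d H → (∀ m, ssub P (H m) = 0) → ∃ N : Tup K n c, Hom d N ∧
      (∀ f, DG D N (x f) = 0) ∧ ∀ m, ssub P (N m) = ssub P (dco δ (H m) - af E (H m)))
    (i : Fin 3) (f : Fin (n + 1)) :
    δ (P i f) + ∑ q, E f q * P i q = ∑ j, mat t P E j i * P j f := by
  classical
  set a : Fin (n + 1) → K := fun p => (if p = f then 1 else 0) -
    ∑ j, P j f * if p = t j then 1 else 0 with ha
  -- sums with `a`
  have hsum : ∀ w : Fin (n + 1) → K, ∑ p, a p * w p = w f - ∑ j, P j f * w (t j) := by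
    intro w
    have e1 : ∀ p, a p * w p = (if p = f then w p else 0) -
        ∑ j, if p = t j then P j f * w p else 0 := by
      intro p
      rw [ha, sub_mul, Finset.sum_mul]
      congr 1
      · split_ifs
        · rw [one_mul]
        · rw [zero_mul]
      · refine Finset.sum_congr rfl fun j _ => ?_
        split_ifs
        · rw [mul_one]
        · rw [mul_zero, zero_mul]
    rw [Finset.sum_congr rfl fun p _ => e1 p, Finset.sum_sub_distrib, Finset.sum_ite_eq',
      if_pos (Finset.mem_univ _), Finset.sum_comm]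
    congr 1
    refine Finset.sum_congr rfl fun j _ => ?_
    rw [Finset.sum_ite_eq', if_pos (Finset.mem_univ _)]
  have haP : ∀ i, ∑ p, a p * P i p = 0 := by
    intro i
    rw [hsum, sub_eq_zero]
    simp only [h.Pt]
    rw [Finset.sum_eq_single i]
    · rw [if_pos rfl, mul_one]
    · intro j _ hj
      rw [if_neg (Ne.symm hj), mul_zero]
    · intro hj; exact absurd (Finset.mem_univ _) hj
  have hl0 : ssub P (H75.lf a) = 0 := by
    rw [ssub_lf]
    refine Finset.sum_eq_zero fun i _ => ?_
    rw [haP, C_0, zero_mul]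
  -- the linear form `z`
  set z : Fin 3 → K := fun i => ∑ p, a p * (δ (P i p) + ∑ q, E p q * P i q) with hz
  have hzi : ∀ i, z i = δ (P i f) + ∑ q, E f q * P i q - ∑ j, mat t P E j i * P j f := by
    intro i
    rw [hz]
    simp only
    rw [hsum (fun p => δ (P i p) + ∑ q, E p q * P i q)]
    congr 1
    refine Finset.sum_congr rfl fun j _ => ?_
    have : δ (P i (t j)) = 0 := by
      rw [h.Pt]
      split_ifs
      · rw [Derivation.map_one_eq_zero]
      · rw [map_zero]
    rw [this, zero_add, mul_comm]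
    rfl
  suffices h0 : z = 0 by
    have h1 := congrFun h0 i
    rw [hzi, Pi.zero_apply, sub_eq_zero] at h1
    exact h1
  by_contra hne
  -- the restriction of the derivative of `lam A`
  have key : ∀ A : Tup K n c, (∀ m, (A m).IsHomogeneous (d m - 1)) → ∃ N : Tup K n c, Hom d N ∧
      (∀ f, DG D N (x f) = 0) ∧
      ∀ m, ssub P (N m) = - ((∑ i, C (z i) * X i) * ssub P (A m)) := by
    intro A hA
    obtain ⟨N, h1, h2, h3⟩ := hN (fun m => H75.lf a * A m) (fun m => by
      have h4 := (H75.lf_hom a).mul (hA m)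
      rwa [Nat.add_sub_cancel' (hd m)] at h4) fun m => by rw [map_mul, hl0, zero_mul]
    refine ⟨N, h1, h2, fun m => ?_⟩
    rw [h3, ssub_N δ E a haP]
  -- there is a component
  have hne' : Nonempty (Fin c) := by
    by_contra hc
    rw [not_nonempty_iff] at hc
    have hy : ∃ y : Fin (n + 1) → K, LinearIndependent K ![x, y] := by
      refine ⟨P 1, ?_⟩
      rw [LinearIndependent.pair_iff]
      intro s r hsr
      have e1 := congrFun hsr (t 0)
      have e2 := congrFun hsr (t 1)
      simp only [Pi.add_apply, Pi.smul_apply, smul_eq_mul, h.Pt, h.x0, Pi.zero_apply] at e1 e2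
      rw [if_neg (by decide), mul_zero, add_zero, mul_one] at e1
      rw [e1, zero_mul, zero_add] at e2
      simp only [if_true, mul_one] at e2
      exact ⟨e1, e2⟩
    obtain ⟨y, hy⟩ := hy
    obtain ⟨G, -, -, hG⟩ := h.ln y 0 hy
    apply hG
    have : (fun f => DG D G (x f)) = 0 := by
      funext f
      rw [H75.DG_apply]
      exact Finset.sum_of_isEmpty _
    rw [this]
    exact Submodule.zero_mem _
  obtain ⟨m0⟩ := hne'
  -- `z` vanishes at the point
  set c : Fin 3 → K := fun i => x (t i) with hc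
  have hzc : ∑ i, z i * c i = 0 := by
    obtain ⟨N, h1, h2, h3⟩ := key (fun m => X (t 0) ^ (d m - 1)) fun m => by
      simpa using (isHomogeneous_X K (t 0)).pow (d m - 1)
    have h4 := eval_zero h.h0 h1 h2 m0
    rw [eval_x h, h3, map_neg, map_mul, ← eval_x h, map_pow, eval_X, h.x0, one_pow, mul_one,
      neg_eq_zero, map_sum] at h4
    rw [← h4]
    refine Finset.sum_congr rfl fun i _ => ?_
    rw [map_mul, eval_C, eval_X]
  -- a second point of the line
  obtain ⟨b, hb, hbc⟩ : ∃ b : Fin 3 → K, ∑ i, z i * b i = 0 ∧ LinearIndependent K ![c, b] := by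
    have hc0 : c 0 = 1 := h.x0
    have hb : ∀ b : Fin 3 → K, b 0 = 0 → b ≠ 0 → LinearIndependent K ![c, b] := by
      intro b hb0 hb1
      rw [LinearIndependent.pair_iff]
      intro s r hsr
      have h1 := congrFun hsr 0
      simp only [Pi.add_apply, Pi.smul_apply, smul_eq_mul, hc0, hb0, mul_one, mul_zero, add_zero,
        Pi.zero_apply] at h1
      refine ⟨h1, ?_⟩
      rw [h1, zero_smul, zero_add] at hsr
      exact (smul_eq_zero.1 hsr).resolve_right hb1
    by_cases hz1 : z 1 = 0 ∧ z 2 = 0
    · exfalso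
      rw [Fin.sum_univ_three, hz1.1, hz1.2, hc0] at hzc
      apply hne
      funext i
      fin_cases i
      · simpa using hzc
      · exact hz1.1
      · exact hz1.2
    · refine ⟨![0, - z 2, z 1], ?_, hb _ rfl ?_⟩
      · rw [Fin.sum_univ_three]
        simp only [Matrix.cons_val_zero, Matrix.cons_val_one, Matrix.cons_val]
        ring
      · intro h0
        apply hz1
        have e1 := congrFun h0 1
        have e2 := congrFun h0 2
        simp only [Matrix.cons_val_one, Matrix.cons_val, Pi.zero_apply] at e1 e2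
        exact ⟨e2, neg_eq_zero.1 e1⟩
  -- the contradiction to `ln`
  set y : Fin (n + 1) → K := fun f => ∑ i, P i f * b i with hy
  have hxy : LinearIndependent K ![x, y] := by
    rw [LinearIndependent.pair_iff] at hbc ⊢
    intro s r hsr
    apply hbc
    have hli := Fintype.linearIndependent_iff.1 (li_P h) (s • c + r • b) (by
      funext f
      have h1 := congrFun hsr f
      rw [Pi.add_apply, Pi.smul_apply, Pi.smul_apply, h.xP f, hy] at h1
      rw [Finset.sum_apply, ← h1, smul_eq_mul, smul_eq_mul, Finset.mul_sum, Finset.mul_sum,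
        ← Finset.sum_add_distrib]
      refine Finset.sum_congr rfl fun i _ => ?_
      simp only [Pi.smul_apply, Pi.add_apply, smul_eq_mul, hc]
      ring)
    funext i
    exact hli i
  obtain ⟨G, hG, hGl, hGV⟩ := h.ln y 0 hxy
  have hx2 : x = fun f => ∑ i, P i f * c i := funext h.xP
  have hdiv : ∀ m, ∃ A3 : MvPolynomial (Fin 3) K, A3.IsHomogeneous (d m - 1) ∧
      ssub P (G m) = (∑ i, C (z i) * X i) * A3 := by
    intro m
    have hGl' : lineP (ssub P (G m)) c b = 0 := by
      rw [← lineP_ssub, ← hx2]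
      exact hGl m
    have hh : (ssub P (G m)).IsHomogeneous (d m - 1 + 1) := by
      rw [Nat.sub_add_cancel (hd m)]
      exact H65.ssub_hom P (hG m)
    exact Pool.Agent.T2.H14.div_of_line hh hbc hGl' hne hzc hb
  choose A3 hA3 hA3e using hdiv
  obtain ⟨N, h1, h2, h3⟩ := key (fun m => - rename t (A3 m)) fun m =>
    ((hA3 m).rename_isHomogeneous (f := t)).neg
  apply hGV
  have h4 : ∀ m, ssub P ((G - N) m) = 0 := by
    intro m
    rw [Pi.sub_apply, map_sub, h3, map_neg]
    have := congrFun (rs_lift (n := n) h.Pt A3) m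
    rw [rs_apply] at this
    change ssub P (rename t (A3 m)) = A3 m at this
    rw [this, mul_neg, neg_neg, hA3e, sub_self]
  have h5 := (h.int (G - N) (fun m => (hG m).sub (h1 m)) h4).1
  have h6 : (fun f => DG D G (x f)) = 0 := by
    funext f
    have h7 := h5 f
    rw [H75.DG_sub, h2, sub_zero] at h7
    exact h7
  rw [h6]
  exact Submodule.zero_mem _

/-! ### the equations with coefficients -/

theorem BF_hom {B : Fin c → Fin c → MvPolynomial (Fin (n + 1)) K}
    (hB : B ∈ BF K (Fin (n + 1)) d) {H : Tup K n c} (hH : Hom d H) : Hom d (bmul B H) := by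
  intro m
  refine IsHomogeneous.sum _ _ _ fun m' _ => ?_
  by_cases h : d m' ≤ d m
  · have h1 := ((hB m m').1 h).mul (hH m')
    rwa [Nat.sub_add_cancel h] at h1
  · rw [(hB m m').2 (not_le.1 h), zero_mul]
    exact isHomogeneous_zero _ _ _

/-- `D_(B F)` does not move the point -/
theorem fixB_x (h : Pl D x t P) {B : Fin c → Fin c → MvPolynomial (Fin (n + 1)) K}
    (hB : B ∈ BF K (Fin (n + 1)) d) (f : Fin (n + 1)) : DG D (bmul B D.F) (x f) = 0 := by
  classical
  have h1 : bmul B D.F = ∑ m, ∑ m', (Pi.single m (B m m' * D.F m') : Tup K n c) := by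
    funext r
    rw [Finset.sum_apply, Finset.sum_eq_single r]
    · rw [Finset.sum_apply]
      unfold bmul
      refine Finset.sum_congr rfl fun m' _ => ?_
      rw [Pi.single_eq_same]
    · intro m _ hm
      rw [Finset.sum_apply]
      refine Finset.sum_eq_zero fun m' _ => ?_
      rw [Pi.single_eq_of_ne (Ne.symm hm)]
    · intro hr; exact absurd (Finset.mem_univ _) hr
  have h2 : H75.VT D x (bmul B D.F) = 0 := by
    rw [h1, map_sum]
    refine Finset.sum_eq_zero fun m _ => ?_
    rw [map_sum]
    refine Finset.sum_eq_zero fun m' _ => ?_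
    funext f
    rw [H75.VT_apply, Pi.zero_apply]
    by_cases hd : d m' ≤ d m
    · exact h.wB m m' _ hd ((hB m m').1 hd) f
    · rw [(hB m m').2 (not_le.1 hd), zero_mul, Pi.single_zero]
      exact H75.DG_zero D _
  have h3 := congrFun h2 f
  rw [H75.VT_apply] at h3
  exact h3

/-- `D_G B` for the coefficients -/
theorem dB_mem {σ : Type} (δ : Derivation ℤ K K) {B : Fin c → Fin c → MvPolynomial σ K}
    (hB : B ∈ BF K σ d) : (fun m m' => dco δ (B m m')) ∈ BF K σ d :=
  fun m m' => ⟨fun h => H75.dco_hom _ ((hB m m').1 h), fun h => by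
    have h1 := (hB m m').2 h
    simp only [h1, H75.dco_zero]⟩

theorem bmul_ssub (B : Fin c → Fin c → MvPolynomial (Fin (n + 1)) K) (H : Tup K n c)
    (h0 : ∀ m, ssub P (H m) = 0) (m : Fin c) : ssub P (bmul B H m) = 0 := by
  unfold bmul
  rw [map_sum]
  refine Finset.sum_eq_zero fun m' _ => ?_
  rw [map_mul, h0, mul_zero]

theorem w0_span (h : W0 D x) (p q : Fin (n + 1)) :
    Sharp.WT D x p q ∈ Submodule.span K {x} := h p q

/-- Row PCAN for tuples. -/
theorem pcan : PcanStatement := by
  intro K _ _ n c d D x t P hT h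
  have hd : ∀ m, 1 ≤ d m := fun m => le_trans (by norm_num) (hT.two m)
  have hX := fun E f => hx (t := t) (fun p q => w0_span h.w0 p q) h.x0 E f
  refine ⟨fun E => ⟨fun f => hX E f, fun i f => ?_⟩, fun B hB => ⟨fun f => fixB_x h hB f,
    fun i f => ?_⟩⟩
  · refine canon h hd _ E (fun H hH h0 => ?_) i f
    refine ⟨dT (DG D (afT D E)) H - afH E H, fun m => (dT_hom _ hH m).sub (afH_hom E hH m),
      fun f => fixX h.comm hX E hH (h.int H hH h0).1 f, fun m => rfl⟩
  · have h1 := canon h hd (DG D (bmul B D.F)) 0 (fun H hH h0 => ?_) i f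
    · simp only [Pi.zero_apply, zero_mul, Finset.sum_const_zero, add_zero, mat] at h1
      exact h1
    · have hBF : Hom d (bmul B D.F) := BF_hom hB D.hom
      have fH := (h.int H hH h0).1
      refine ⟨dT (DG D (bmul B D.F)) H - bmul B H, fun m => (dT_hom _ hH m).sub (BF_hom hB hH m),
        fun f => ?_, fun m => ?_⟩
      · have hB' : dT (DG D H) (bmul B D.F) =
            bmul (fun m m' => dco (DG D H) (B m m')) D.F + bmul B H := by
          funext m
          rw [dT_apply, Pi.add_apply]
          unfold bmul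
          rw [H75.dco_sum, ← Finset.sum_add_distrib]
          refine Finset.sum_congr rfl fun m' _ => ?_
          rw [H75.dco_mul, H75.dco_F D hH]
        have h2 := dG_comm h.comm hBF hH (x f)
        rw [fH, map_zero, fixB_x h hB, map_zero, sub_zero, hB', sub_add_eq_sub_sub_swap,
          H75.DG_sub, fixB_x h (dB_mem _ hB), sub_zero] at h2
        exact h2.symm
      · rw [Pi.sub_apply, map_sub, bmul_ssub B H h0, sub_zero, dT_apply, map_sub]
        have h3 : af (0 : Fin (n + 1) → Fin (n + 1) → K) (H m) = 0 := by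
          unfold af H75.lf
          simp
        rw [h3, map_zero, sub_zero]

end

end Pool.Agent.T2C.H14
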