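import Pool.Agent.Lib.MP_c7af3c_ag.T2C.H14.PcanC
import Pool.Agent.Lib.MP_c7af3c_ag.SHARP.H54.NoLines

/-!
# MP_c7af3c_ag, project T2C: rows QUAD and NOLN (helper14)
-/

set_option autoImplicit false

namespace Pool.Agent.T2C.H14

open MvPolynomial Pool.Agent.Gen Pool.Agent.Sharp Pool.Agent.Edge Pool.Agent.T2C
open Pool.Agent.T2C.H8 (Fix T3 HomC lift rs RC sm mulC dT dT_apply dT_hom dG_comm afH afH_apply
  afH_hom afT_apply afT_hom der_dot ssub_lf fix_iff rs_apply rs_lift sm_apply lift_apply)
open Pool.Agent.Sharp.H75 (dco DG af lf Tup Hom afT)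
open Pool.Agent.Edge.H65 (ssub)

/-- Row QUAD. -/
theorem quad : QuadStatement := by
  intro hP K _ _ n c d D x t P hT h m hm
  classical
  obtain ⟨-, hB⟩ := hP K n c d D x t P hT h
  rintro _ ⟨b, hb, rfl⟩
  set B : Fin c → Fin c → MvPolynomial (Fin (n + 1)) K :=
    fun m' m'' => if m'' = m then rename t (b m') else 0 with hBdef
  have hBm : B ∈ BF K (Fin (n + 1)) d := by
    intro m' m''
    by_cases h1 : m'' = m
    · subst h1
      simp only [hBdef, if_true]
      refine ⟨fun _ => ?_, fun h2 => ?_⟩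
      · rw [hm]
        exact (hb m').rename_isHomogeneous (f := t)
      · exact absurd (hT.two m') (by omega)
    · simp only [hBdef, if_neg h1]
      exact ⟨fun _ => isHomogeneous_zero _ _ _, fun _ => trivial⟩
  have h1 : bmul B D.F = fun m' => rename t (b m') * D.F m := by
    funext m'
    unfold bmul
    rw [Finset.sum_eq_single m]
    · simp only [hBdef, if_true]
    · intro m'' _ h2
      simp only [hBdef, if_neg h2, zero_mul]
    · intro h2; exact absurd (Finset.mem_univ _) h2
  have h2 := (fix_iff h.plC (BF_hom hBm D.hom)).1 (hB B hBm)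
  have h3 : rs P (bmul B D.F) = sm (fP D P m) b := by
    funext m'
    rw [rs_apply, h1, sm_apply, map_mul]
    have h4 := congrFun (rs_lift (n := n) h.Pt b) m'
    rw [rs_apply, lift_apply] at h4
    rw [h4, mul_comm]
    rfl
  rwa [h3] at h2

/-- Row NOLN. -/
theorem noln : NolnStatement := by
  intro K _ _ n c d D x y hT hxy
  refine Pool.Agent.Sharp.H54.nolines D hxy ?_
  have h1 := hT.hn
  have h2 := hT.sum
  omega

end Pool.Agent.T2C.H14
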