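import Pool.Agent.Lib.MP_c7af3c_ag.T2C.H14.Asmb
import Pool.Agent.Lib.MP_c7af3c_ag.T2C.H14.PcanC
import Pool.Agent.Lib.MP_c7af3c_ag.T2C.H14.Quad
import Pool.Agent.Lib.MP_c7af3c_ag.T2C.H11.HallRow
import Pool.Agent.Lib.MP_c7af3c_ag.T2C.H11.Q2223
import Pool.Agent.Lib.MP_c7af3c_ag.T2C.H12.Norm1
import Pool.Agent.Lib.MP_c7af3c_ag.T2C.H31.Norm
import Pool.Agent.Lib.MP_c7af3c_ag.T2C.H32.NormOne
import Pool.Agent.Lib.MP_c7af3c_ag.T2C.H44.Norm2
import Pool.Agent.Lib.MP_c7af3c_ag.T2C.H44.Rigid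
import Pool.Agent.Lib.MP_c7af3c_ag.T2C.H59.Nquad
import Pool.Agent.Lib.MP_c7af3c_ag.T2C.H60.Uniq
import Pool.Agent.Lib.MP_c7af3c_ag.T2C.H79.Phi
import Pool.Agent.Lib.MP_c7af3c_ag.T2C.H8.Rows
import Pool.Agent.Lib.MP_c7af3c_ag.T2C.H80.Norm3
import Pool.Agent.Lib.MP_c7af3c_ag.T2C.H84.Qintb
import Pool.Agent.Lib.MP_c7af3c_ag.T2C.H90.BuRow
import Pool.Agent.Lib.MP_c7af3c_ag.T2C.H96.P25
import Pool.Agent.Lib.MP_c7af3c_ag.T2C.H95.Lift
import Pool.Agent.Lib.MP_c7af3c_ag.T2C.H56.Nsing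
import Pool.Agent.Lib.MP_c7af3c_ag.T2.H8.Qcl
import Pool.Agent.Lib.MP_c7af3c_ag.T2.H95.Close

/-!
# MP_c7af3c_ag, project T2C: the plane type is impossible, from the open rows
-/

set_option autoImplicit false

namespace Pool.Agent.T2C.H14

open MvPolynomial Pool.Agent.T2C

/-- The plane type is impossible, from the rows DET, NORM4, N34, N233, Q25. -/
theorem plane_of (det : DetStatement) (norm4 : NormeStatement (X 2 ^ 2)) (n34 : N34Statement)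
    (n233 : N233Statement) (q25 : Q25Statement) : PlaneTypeStatement :=
  asmb H90.bu H11.hallRow det T2.H95.close H95.lift H60.uniq H84.qintb T2.H8.qcl H32.normone
    H12.norm1 H44.norm2 H80.norm3 norm4 H59.nquad H56.nsing n34 n233 H31.norm pcan H79.phi quad
    H8.qint H8.qeq H8.stab H44.rigid noln q25 H11.q2223 H96.p25

end Pool.Agent.T2C.H14
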